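import Pool.Agent.Helper81.OP.Defs

/-!
# PLC: placement of branches
-/

set_option autoImplicit false

open SimpleGraph
open scoped Classical ENNReal

namespace Pool.Agent.Helper81.OP

theorem plc_fold (h : ℕ → ℕ) (L : List ℕ) (j : ℕ) :
    (L.foldr (fun i s => s ||| 2 ^ h i) 0).testBit j = true ↔ ∃ i ∈ L, h i = j := by
  induction L with
  | nil => simp
  | cons a L ih =>
    rw [List.foldr_cons, Nat.testBit_or, Bool.or_eq_true, ih, Nat.testBit_two_pow]
    simp only [List.mem_cons, decide_eq_true_eq]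
    constructor
    · rintro (⟨i, hi, rfl⟩ | h1)
      · exact ⟨i, Or.inr hi, rfl⟩
      · exact ⟨a, Or.inl rfl, h1⟩
    · rintro ⟨i, rfl | hi, h1⟩
      · exact Or.inr h1
      · exact Or.inl ⟨i, hi, h1⟩

theorem plc_mmap (l : List ℕ) (m j : ℕ) :
    (mmap l m).testBit j = true ↔ ∃ k < l.length, m.testBit k = true ∧ l.getD k 0 = j := by
  unfold mmap
  rw [plc_fold (fun i => l.getD i 0)]
  simp only [List.mem_filter, List.mem_range]
  constructor
  · rintro ⟨i, ⟨h1, h2⟩, h3⟩
    exact ⟨i, h1, h2, h3⟩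
  · rintro ⟨i, h1, h2, h3⟩
    exact ⟨i, ⟨h1, h2⟩, h3⟩

theorem plc_mpre (l : List ℕ) (W j : ℕ) :
    (mpre l W).testBit j = true ↔ j < l.length ∧ W.testBit (l.getD j 0) = true := by
  unfold mpre
  rw [plc_fold (fun i => i)]
  simp only [List.mem_filter, List.mem_range]
  constructor
  · rintro ⟨i, ⟨h1, h2⟩, rfl⟩
    exact ⟨h1, h2⟩
  · rintro ⟨h1, h2⟩
    exact ⟨j, ⟨h1, h2⟩, rfl⟩

theorem plc_lt_of_bits {m s : ℕ} (h : ∀ j, m.testBit j = true → j < s) : m < 2 ^ s := by
  apply Nat.lt_pow_two_of_testBit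
  intro i hi
  by_contra hc
  have := h i (by simpa using hc)
  omega

theorem plc_bit_lt {m s j : ℕ} (hm : m < 2 ^ s) (h : m.testBit j = true) : j < s := by
  by_contra hc
  have h1 : m < 2 ^ j := lt_of_lt_of_le hm (Nat.pow_le_pow_right (by norm_num) (by omega))
  rw [Nat.testBit_lt_two_pow h1] at h
  exact absurd h (by simp)

theorem plc_mem_fm {V : Type} (f : ℕ → V) (m : ℕ) (x : V) :
    x ∈ fm f m ↔ ∃ i < 6, m.testBit i = true ∧ f i = x := by
  unfold fm
  simp only [Finset.mem_image, Finset.mem_filter, Finset.mem_range]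
  constructor
  · rintro ⟨i, ⟨h1, h2⟩, h3⟩
    exact ⟨i, h1, h2, h3⟩
  · rintro ⟨i, h1, h2, h3⟩
    exact ⟨i, ⟨h1, h2⟩, h3⟩

/-- digits of a sum -/
theorem plc_sum (d : ℕ → ℕ) (hd : ∀ W, d W < 32) (n : ℕ) :
    ((List.range n).map fun W => d W <<< (5 * W)).sum < 32 ^ n ∧
    ∀ W, dig ((List.range n).map fun W => d W <<< (5 * W)).sum W = if W < n then d W else 0 := by
  induction n with
  | zero =>
    refine ⟨by simp, fun W => ?_⟩
    simp [dig]
  | succ n ih =>
    obtain ⟨ih1, ih2⟩ := ih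
    have hpow : ∀ k : ℕ, (2 : ℕ) ^ (5 * k) = 32 ^ k := fun k => by
      rw [pow_mul]
      norm_num
    set S := ((List.range n).map fun W => d W <<< (5 * W)).sum with hS
    have hsum : ((List.range (n + 1)).map fun W => d W <<< (5 * W)).sum = S + d n * 32 ^ n := by
      rw [List.range_succ, List.map_append, List.sum_append]
      simp [Nat.shiftLeft_eq, hpow, hS]
    have hlt : S + d n * 32 ^ n < 32 ^ (n + 1) := by
      have h1 := hd n
      have h2 : d n * 32 ^ n ≤ 31 * 32 ^ n := Nat.mul_le_mul_right _ (by omega)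
      rw [pow_succ]
      omega
    rw [hsum]
    refine ⟨hlt, fun W => ?_⟩
    have hdig : ∀ a W : ℕ, dig a W = a / 32 ^ W % 32 := fun a W => by
      unfold dig
      rw [Nat.shiftRight_eq_div_pow, hpow]
    rw [hdig]
    have ih3 := ih2 W
    rw [hdig] at ih3
    rcases lt_trichotomy W n with h | h | h
    · rw [if_pos h] at ih3
      rw [if_pos (by omega)]
      obtain ⟨k, rfl⟩ : ∃ k, n = W + 1 + k := ⟨n - (W + 1), by omega⟩
      have h4 : S + d (W + 1 + k) * 32 ^ (W + 1 + k) =
          S + 32 ^ W * (32 * (d (W + 1 + k) * 32 ^ k)) := by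
        rw [pow_add, pow_succ]
        ring
      rw [h4, Nat.add_mul_div_left _ _ (by positivity), Nat.add_mul_mod_self_left]
      exact ih3
    · subst h
      rw [if_pos (by omega), Nat.add_mul_div_right _ _ (by positivity), Nat.div_eq_of_lt ih1,
        zero_add]
      exact Nat.mod_eq_of_lt (hd W)
    · rw [if_neg (by omega)]
      have h5 : S + d n * 32 ^ n < 32 ^ W :=
        lt_of_lt_of_le hlt (Nat.pow_le_pow_right (by norm_num) (by omega))
      rw [Nat.div_eq_of_lt h5]

theorem plc_dig (q : ℕ) (l : List ℕ) (σ : St) (W : ℕ) :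
    dig (place q l σ).h W = if W < 2 ^ q then dig σ.h (mpre l W) else 0 := by
  have h := (plc_sum (fun W => dig σ.h (mpre l W))
    (fun W => by unfold dig; exact Nat.mod_lt _ (by norm_num)) (2 ^ q)).2 W
  exact h

/-- monotonicity of `D` -/
theorem plc_mono {V : Type} {G : SimpleGraph V} {C Y Y' : Finset V} {v : ℕ} (h : D G C Y v)
    (hY : Y ⊆ Y') (hC : Disjoint C Y') : D G C Y' v := by
  obtain ⟨X, 𝒜, hX, hF, hA, hv⟩ := h
  refine ⟨X, 𝒜, hX, ⟨hF.ne, hF.dj, fun A hA' => ?_, fun A hA' x hx y hxy => ?_⟩, hA, hv⟩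
  · rw [Finset.disjoint_union_right]
    exact ⟨(Finset.disjoint_union_right.1 (hF.off A hA')).1,
      Finset.disjoint_of_subset_left (hA A hA') hC⟩
  · rcases hF.cl A hA' x hx y hxy with h1 | h1
    · exact Or.inl h1
    · exact Or.inr (Finset.union_subset_union_right hY h1)

theorem plc_zero {V : Type} (G : SimpleGraph V) (C Y : Finset V) : D G C Y 0 :=
  ⟨∅, ∅, by simp, ⟨by simp, by simp, by simp, by simp⟩, by simp, by simp⟩

/-- the placement lemma -/
theorem plc_main {V : Type} {G : SimpleGraph V} {f g : ℕ → V} {C : Finset V} {σ : St} {q s : ℕ}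
    {l : List ℕ} (hq : q ≤ 6) (hs : s ≤ 6) (hl : l.length = s) (hlq : ∀ k < s, l.getD k 0 < q)
    (hfg : ∀ k < s, f (l.getD k 0) = g k) (hS : σ.S < 2 ^ s)
    (hT : ∀ t ∈ σ.T, t.1 < s ∧ t.2.1 < s ∧ t.2.2 < 2 ^ s)
    (hC : Disjoint C (fm f (2 ^ q - 1))) (h : Real G g C σ) : Real G f C (place q l σ) := by
  have hfm : ∀ m < 2 ^ s, fm f (mmap l m) = fm g m := by
    intro m hm
    ext x
    rw [plc_mem_fm, plc_mem_fm]
    constructor
    · rintro ⟨i, _, h2, h3⟩
      obtain ⟨k, hk, h4, h5⟩ := (plc_mmap l m i).1 h2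
      rw [hl] at hk
      refine ⟨k, by omega, h4, ?_⟩
      rw [← hfg k hk, h5, h3]
    · rintro ⟨k, _, h2, h3⟩
      have hk : k < s := plc_bit_lt hm h2
      refine ⟨l.getD k 0, by have := hlq k hk; omega, (plc_mmap l m _).2
        ⟨k, by rw [hl]; exact hk, h2, rfl⟩, ?_⟩
      rw [hfg k hk, h3]
  refine ⟨?_, ?_, ?_⟩
  · show Piece G C (fm f (mmap l σ.S))
    rw [hfm _ hS]
    exact h.pc
  · intro t ht
    change t ∈ σ.T.map (fun t => (l.getD t.1 0, l.getD t.2.1 0, mmap l t.2.2)) at ht
    obtain ⟨t', ht', rfl⟩ := List.mem_map.1 ht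
    obtain ⟨h1, h2, h3⟩ := hT t' ht'
    have h4 := h.ty t' ht'
    show HP G (f (l.getD t'.1 0)) (f (l.getD t'.2.1 0))
      (C ∪ {f (l.getD t'.1 0), f (l.getD t'.2.1 0)} ∪ fm f (mmap l t'.2.2))
    rw [hfg _ h1, hfg _ h2, hfm _ h3]
    exact h4
  · intro W hW
    rw [plc_dig]
    split_ifs with h1
    · have hlt : mpre l W < 2 ^ s := plc_lt_of_bits fun j hj => by
        have := ((plc_mpre l W j).1 hj).1
        omega
      have h64 : mpre l W < 64 := lt_of_lt_of_le hlt
        (le_trans (Nat.pow_le_pow_right (by norm_num) hs) (by norm_num))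
      refine plc_mono (h.pr _ h64) ?_ ?_
      · intro x hx
        obtain ⟨k, _, h3, h4⟩ := (plc_mem_fm _ _ _).1 hx
        obtain ⟨h5, h6⟩ := (plc_mpre l W k).1 h3
        rw [hl] at h5
        refine (plc_mem_fm _ _ _).2 ⟨l.getD k 0, by have := hlq k h5; omega, h6, ?_⟩
        rw [hfg k h5, h4]
      · refine Finset.disjoint_of_subset_right ?_ hC
        intro x hx
        obtain ⟨k, h2, h3, h4⟩ := (plc_mem_fm _ _ _).1 hx
        refine (plc_mem_fm _ _ _).2 ⟨k, h2, ?_, h4⟩
        rw [Nat.testBit_two_pow_sub_one]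
        exact decide_eq_true (plc_bit_lt h1 h3)
    · exact plc_zero G C _

theorem plc_injs (q : ℕ) : ∀ (s : ℕ) (l : List ℕ), l.length = s → l.Nodup → (∀ x ∈ l, x < q) →
    l ∈ injs q s := by
  intro s
  induction s with
  | zero =>
    intro l hl _ _
    rw [List.length_eq_zero_iff.1 hl]
    simp [injs]
  | succ s ih =>
    intro l hl hn hx
    rcases List.eq_nil_or_concat l with rfl | ⟨l', x, rfl⟩
    · simp at hl
    · rw [List.concat_eq_append] at *
      have h1 : l'.length = s := by simpa using hl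
      have h2 := List.nodup_append.1 hn
      have hx' : x ∉ l' := by
        intro hc
        exact h2.2.2 x hc x (by simp) rfl
      unfold injs
      refine List.mem_flatMap.2 ⟨l', ih l' h1 h2.1 fun y hy => hx y (by simp [hy]), ?_⟩
      refine List.mem_map.2 ⟨x, List.mem_filter.2 ⟨List.mem_range.2 (hx x (by simp)), ?_⟩, rfl⟩
      simpa using hx'

theorem plc_fours : ∀ σ ∈ fours, σ.S < 2 ^ 4 ∧
    ∀ t ∈ σ.T, t.1 < 4 ∧ t.2.1 < 4 ∧ t.2.2 < 2 ^ 4 := by
  decide

theorem plc_st3 : st3.S < 2 ^ 3 ∧ ∀ t ∈ st3.T, t.1 < 3 ∧ t.2.1 < 3 ∧ t.2.2 < 2 ^ 3 := by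
  decide

/-- symmetric form of the state `st3` -/
structure PlcQ {V : Type} (G : SimpleGraph V) (C E : Finset V) : Prop where
  pc : Piece G C E
  ty : ∀ u ∈ E, ∀ v ∈ E, u ≠ v → HP G u v (C ∪ {u, v})
  pr : D G C E 3

theorem plc_fm0 {V : Type} (f : ℕ → V) : fm f 0 = ∅ := by
  ext x
  rw [plc_mem_fm]
  simp

theorem plc_mem7 {V : Type} (g : ℕ → V) (x : V) : x ∈ fm g 7 ↔ ∃ i < 3, g i = x := by
  rw [plc_mem_fm]
  constructor
  · rintro ⟨i, _, h2, h3⟩
    exact ⟨i, plc_bit_lt (s := 3) (by norm_num) h2, h3⟩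
  · rintro ⟨i, h1, h2⟩
    refine ⟨i, by omega, ?_, h2⟩
    interval_cases i <;> decide

theorem plc_toQ {V : Type} {G : SimpleGraph V} {g : ℕ → V} {C : Finset V} (h : Real G g C st3) :
    PlcQ G C (fm g 7) := by
  refine ⟨h.pc, ?_, ?_⟩
  · intro u hu v hv huv
    obtain ⟨i, hi, rfl⟩ := (plc_mem7 g u).1 hu
    obtain ⟨j, hj, rfl⟩ := (plc_mem7 g v).1 hv
    have hij : i ≠ j := fun hc => huv (by rw [hc])
    have h1 : (i, j, 0) ∈ st3.T := by
      interval_cases i <;> interval_cases j <;> first | exact absurd rfl hij | decide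
    have h2 := h.ty _ h1
    simp only [plc_fm0, Finset.union_empty] at h2
    exact h2
  · have h1 := h.pr 7 (by norm_num)
    have h2 : dig st3.h 7 = 3 := by decide
    rw [h2] at h1
    exact h1

theorem plc_dig3 : ∀ W < 64, W ≠ 7 → dig st3.h W = 0 := by
  decide

theorem plc_ofQ {V : Type} {G : SimpleGraph V} {g : ℕ → V} {C : Finset V}
    (hg : ∀ i < 3, ∀ j < 3, g i = g j → i = j) (h : PlcQ G C (fm g 7)) : Real G g C st3 := by
  refine ⟨h.pc, ?_, ?_⟩
  · intro t ht
    have h1 : t.1 < 3 ∧ t.2.1 < 3 ∧ t.2.2 = 0 ∧ t.1 ≠ t.2.1 := by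
      have : ∀ t ∈ st3.T, t.1 < 3 ∧ t.2.1 < 3 ∧ t.2.2 = 0 ∧ t.1 ≠ t.2.1 := by decide
      exact this t ht
    obtain ⟨h2, h3, h4, h5⟩ := h1
    rw [h4, plc_fm0, Finset.union_empty]
    exact h.ty _ ((plc_mem7 g _).2 ⟨_, h2, rfl⟩) _ ((plc_mem7 g _).2 ⟨_, h3, rfl⟩)
      fun hc => h5 (hg _ h2 _ h3 hc)
  · intro W hW
    by_cases h7 : W = 7
    · subst h7
      have h2 : dig st3.h 7 = 3 := by decide
      rw [h2]
      exact h.pr
    · rw [plc_dig3 W hW h7]
      exact plc_zero G C _

theorem plc_full {V : Type} (f : ℕ → V) {q : ℕ} (hq : q ≤ 6) (x : V) :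
    x ∈ fm f (2 ^ q - 1) ↔ ∃ i < q, f i = x := by
  rw [plc_mem_fm]
  constructor
  · rintro ⟨i, _, h2, h3⟩
    rw [Nat.testBit_two_pow_sub_one] at h2
    exact ⟨i, of_decide_eq_true h2, h3⟩
  · rintro ⟨i, h1, h2⟩
    refine ⟨i, by omega, ?_, h2⟩
    rw [Nat.testBit_two_pow_sub_one]
    exact decide_eq_true h1

theorem st_PLC : ST_PLC := by
  refine ⟨?_, ?_⟩
  · intro V G f g C σ hσ hf hg hsub hC hR
    have h31 : fm f 31 = fm f (2 ^ 5 - 1) := by norm_num
    have h15 : fm g 15 = fm g (2 ^ 4 - 1) := by norm_num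
    rw [h31] at hC hsub
    rw [h15] at hsub
    obtain ⟨hS, hT⟩ := plc_fours σ hσ
    constructor
    · have hex : ∀ i, ∃ j, i < 4 → j < 5 ∧ f j = g i := by
        intro i
        by_cases hi : i < 4
        · obtain ⟨j, hj, h1⟩ := (plc_full f (q := 5) (by norm_num) (g i)).1
            (hsub ((plc_full g (q := 4) (by norm_num) _).2 ⟨i, hi, rfl⟩))
          exact ⟨j, fun _ => ⟨hj, h1⟩⟩
        · exact ⟨0, fun h => absurd h hi⟩
      choose e he using hex
      have hget : ∀ k < 4, ((List.range 4).map e).getD k 0 = e k := by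
        intro k hk
        interval_cases k <;> rfl
      refine ⟨place 5 ((List.range 4).map e) σ, ?_, ?_⟩
      · unfold pl4
        refine List.mem_flatMap.2 ⟨σ, hσ, List.mem_map.2 ⟨_, plc_injs 5 4 _ (by simp) ?_ ?_, rfl⟩⟩
        · refine List.Nodup.map_on ?_ List.nodup_range
          intro x hx y hy hxy
          rw [List.mem_range] at hx hy
          refine hg x hx y hy ?_
          rw [← (he x hx).2, ← (he y hy).2, hxy]
        · intro x hx
          obtain ⟨i, hi, rfl⟩ := List.mem_map.1 hx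
          exact (he i (List.mem_range.1 hi)).1
      · refine plc_main (s := 4) (by norm_num) (by norm_num) (by simp) ?_ ?_ hS hT hC hR
        · intro k hk
          rw [hget k hk]
          exact (he k hk).1
        · intro k hk
          rw [hget k hk]
          exact (he k hk).2
    · intro hfg
      have hget : ∀ k < 4, [0, 1, 2, 3].getD k 0 = k := by
        intro k hk
        interval_cases k <;> rfl
      refine plc_main (s := 4) (by norm_num) (by norm_num) rfl ?_ ?_ hS hT hC hR
      · intro k hk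
        rw [hget k hk]
        omega
      · intro k hk
        rw [hget k hk]
        exact hfg k hk
  · intro V G f g q C hq4 hq6 hf hg hsub hC hR
    obtain ⟨hS, hT⟩ := plc_st3
    constructor
    · set l : List ℕ := (List.range q).filter fun j => decide (f j ∈ fm g 7) with hldef
      have hmem : ∀ x, x ∈ l ↔ x < q ∧ f x ∈ fm g 7 := by
        intro x
        rw [hldef, List.mem_filter, List.mem_range, decide_eq_true_eq]
      have hnd : l.Nodup := List.Nodup.filter _ List.nodup_range
      have hpw : l.Pairwise (· < ·) := List.Pairwise.filter _ List.pairwise_lt_range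
      have himg : l.toFinset.image f = fm g 7 := by
        ext x
        rw [Finset.mem_image]
        constructor
        · rintro ⟨i, hi, rfl⟩
          exact ((hmem i).1 (List.mem_toFinset.1 hi)).2
        · intro hx
          obtain ⟨i, hi, rfl⟩ := (plc_full f hq6 x).1 (hsub hx)
          exact ⟨i, List.mem_toFinset.2 ((hmem i).2 ⟨hi, hx⟩), rfl⟩
      have hc3 : (fm g 7).card = 3 := by
        have h1 : fm g 7 = (Finset.range 3).image g := by
          ext x
          rw [plc_mem7, Finset.mem_image]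
          simp only [Finset.mem_range]
        rw [h1, Finset.card_image_of_injOn, Finset.card_range]
        intro a ha b hb hab
        exact hg a (by simpa using ha) b (by simpa using hb) hab
      have hlen : l.length = 3 := by
        rw [← hc3, ← himg, Finset.card_image_of_injOn, List.toFinset_card_of_nodup hnd]
        intro a ha b hb hab
        exact hf a ((hmem a).1 (List.mem_toFinset.1 (Finset.mem_coe.1 ha))).1 b
          ((hmem b).1 (List.mem_toFinset.1 (Finset.mem_coe.1 hb))).1 hab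
      have hgetmem : ∀ k < 3, l.getD k 0 ∈ l := by
        intro k hk
        rw [List.getD_eq_getElem _ _ (by rw [hlen]; exact hk)]
        exact List.getElem_mem _
      have hlq : ∀ k < 3, l.getD k 0 < q := fun k hk => ((hmem _).1 (hgetmem k hk)).1
      have hginj : ∀ i < 3, ∀ j < 3, f (l.getD i 0) = f (l.getD j 0) → i = j := by
        intro i hi j hj hij
        have h1 := hf _ (hlq i hi) _ (hlq j hj) hij
        rw [List.getD_eq_getElem _ _ (by rw [hlen]; exact hi),
          List.getD_eq_getElem _ _ (by rw [hlen]; exact hj)] at h1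
        exact (List.Nodup.getElem_inj_iff hnd).1 h1
      have hfm : fm (fun i => f (l.getD i 0)) 7 = fm g 7 := by
        ext x
        rw [plc_mem7, ← himg, Finset.mem_image]
        constructor
        · rintro ⟨i, hi, rfl⟩
          exact ⟨_, List.mem_toFinset.2 (hgetmem i hi), rfl⟩
        · rintro ⟨i, hi, rfl⟩
          obtain ⟨k, hk, h2⟩ := List.getElem_of_mem (List.mem_toFinset.1 hi)
          refine ⟨k, by omega, ?_⟩
          show f (l.getD k 0) = f i
          rw [List.getD_eq_getElem _ _ hk, h2]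
      refine ⟨place q l st3, ?_, ?_⟩
      · unfold pl3 incs
        refine List.mem_map.2 ⟨l, List.mem_filter.2 ⟨plc_injs q 3 l hlen hnd fun x hx =>
          ((hmem x).1 hx).1, ?_⟩, rfl⟩
        exact decide_eq_true hpw
      · have hR' : Real G (fun i => f (l.getD i 0)) C st3 := by
          refine plc_ofQ hginj ?_
          rw [hfm]
          exact plc_toQ hR
        exact plc_main (s := 3) hq6 (by norm_num) hlen hlq (fun k _ => rfl) hS hT hC hR'
    · intro hfg
      have hget : ∀ k < 3, [0, 1, 2].getD k 0 = k := by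
        intro k hk
        interval_cases k <;> rfl
      refine plc_main (s := 3) hq6 (by norm_num) rfl ?_ ?_ hS hT hC hR
      · intro k hk
        rw [hget k hk]
        omega
      · intro k hk
        rw [hget k hk]
        exact hfg k hk

end Pool.Agent.Helper81.OP
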